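import Mathlib

/-!
# A finite ordered set with the fixed point property whose iterated clique graphs never collapse

The ordered set is the face poset of the hemicube (the regular cell decomposition of the
projective plane with 4 vertices, 6 edges and 3 quadrilateral faces); it has 13 elements.
-/

namespace Pool.Agent.Results.MP_c7efa6_co.FixedPointWithoutCollapse

/-- The comparability graph of an ordered set: distinct elements are adjacent iff they are
comparable. -/
def compGraph (P : Type) [PartialOrder P] : SimpleGraph P where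
  Adj x y := x ≠ y ∧ (x ≤ y ∨ y ≤ x)
  symm := ⟨fun _ _ h => ⟨h.1.symm, h.2.symm⟩⟩
  loopless := ⟨fun _ h => h.1 rfl⟩

/-- The vertices of the clique graph: the maximal (under inclusion) cliques. -/
abbrev MaxClique {V : Type} (G : SimpleGraph V) : Type :=
  {s : Set V // Maximal (fun t : Set V => G.IsClique t) s}

/-- The clique graph: distinct maximal cliques are adjacent iff they share a vertex. -/
def cliqueGraph {V : Type} (G : SimpleGraph V) : SimpleGraph (MaxClique G) where
  Adj s t := s ≠ t ∧ (s.1 ∩ t.1).Nonempty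
  symm := ⟨fun _ _ h => ⟨h.1.symm, by rw [Set.inter_comm]; exact h.2⟩⟩
  loopless := ⟨fun _ h => h.1 rfl⟩

/-- The iterated clique graphs `K^n(G)`, a vertex type together with a graph on it. -/
def iterK (G : Σ V : Type, SimpleGraph V) : ℕ → Σ V : Type, SimpleGraph V
  | 0 => G
  | n + 1 => ⟨MaxClique (iterK G n).2, cliqueGraph (iterK G n).2⟩

/-- Equal or adjacent. -/
def Rel {V : Type} (G : SimpleGraph V) (x y : V) : Prop := x = y ∨ G.Adj x y

/-- A cocycle with values in a group: `c x y * c y z = c x z` on pairwise equal-or-adjacent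
triples. -/
def IsCocycle {V : Type} (G : SimpleGraph V) {Γ : Type} [Group Γ] (c : V → V → Γ) : Prop :=
  ∀ x y z, Rel G x y → Rel G y z → Rel G x z → c x y * c y z = c x z

/-- A cocycle is trivial if it is a coboundary. -/
def IsTrivial {V : Type} (G : SimpleGraph V) {Γ : Type} [Group Γ] (c : V → V → Γ) : Prop :=
  ∃ f : V → Γ, ∀ x y, Rel G x y → c x y = (f x)⁻¹ * f y

section cocycles

variable {V : Type} {G : SimpleGraph V} {Γ : Type} [Group Γ]

lemma Rel.refl (x : V) : Rel G x x := Or.inl rfl

lemma Rel.symm {x y : V} (h : Rel G x y) : Rel G y x := by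
  rcases h with h | h
  · exact Or.inl h.symm
  · exact Or.inr h.symm

lemma rel_of_clique {s : Set V} (hs : G.IsClique s) {x y : V} (hx : x ∈ s) (hy : y ∈ s) :
    Rel G x y := by
  by_cases h : x = y
  · exact Or.inl h
  · exact Or.inr (hs hx hy h)

lemma IsCocycle.self {c : V → V → Γ} (hc : IsCocycle G c) (x : V) : c x x = 1 := by
  have := hc x x x (Rel.refl x) (Rel.refl x) (Rel.refl x)
  simpa using this

lemma IsCocycle.mul_symm {c : V → V → Γ} (hc : IsCocycle G c) {x y : V} (h : Rel G x y) :
    c x y * c y x = 1 := by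
  rw [hc x y x h h.symm (Rel.refl x), hc.self]

lemma exists_maxClique {s : Set V} (hs : G.IsClique s) : ∃ t : MaxClique G, s ⊆ t.1 := by
  obtain ⟨m, hsm, hm⟩ := zorn_subset_nonempty {t : Set V | G.IsClique t} (fun C hC hch _ => by
    refine ⟨⋃₀ C, ?_, fun t ht => Set.subset_sUnion_of_mem ht⟩
    intro x hx y hy hxy
    obtain ⟨t, ht, hxt⟩ := hx
    obtain ⟨u, hu, hyu⟩ := hy
    rcases hch.total ht hu with h | h
    · exact hC hu (h hxt) hyu hxy
    · exact hC ht hxt (h hyu) hxy) s hs
  exact ⟨⟨m, hm⟩, hsm⟩

lemma exists_maxClique_pair {x y : V} (h : Rel G x y) :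
    ∃ t : MaxClique G, x ∈ t.1 ∧ y ∈ t.1 := by
  have : G.IsClique ({x, y} : Set V) := by
    rcases h with rfl | h
    · simp
    · intro a ha b hb hab
      rcases ha with rfl | rfl <;> rcases hb with rfl | rfl
      · exact absurd rfl hab
      · exact h
      · exact h.symm
      · exact absurd rfl hab
  obtain ⟨t, ht⟩ := exists_maxClique this
  exact ⟨t, ht (by simp), ht (by simp)⟩

/-- If `G` carries a nontrivial cocycle then so does its clique graph. -/
theorem cliqueGraph_cocycle (c : V → V → Γ) (hc : IsCocycle G c) (hn : ¬ IsTrivial G c) :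
    ∃ c' : MaxClique G → MaxClique G → Γ,
      IsCocycle (cliqueGraph G) c' ∧ ¬ IsTrivial (cliqueGraph G) c' := by
  classical
  -- every maximal clique is nonempty, as `V` is nonempty
  have hV : Nonempty V := by
    by_contra h
    exact hn ⟨fun _ => 1, fun x => absurd ⟨x⟩ h⟩
  obtain ⟨v₀⟩ := hV
  have hne : ∀ s : MaxClique G, ∃ x, x ∈ s.1 := by
    intro s
    by_contra h
    push Not at h
    have h1 : s.1 ⊆ ({v₀} : Set V) := fun x hx => absurd hx (h x)
    have h2 := s.2.2 (show G.IsClique ({v₀} : Set V) by simp) h1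
    exact h v₀ (h2 rfl)
  choose b hb using hne
  -- base point, and a point in the intersection of two equal or adjacent cliques
  have hcl : ∀ s : MaxClique G, G.IsClique s.1 := fun s => s.2.1
  have hrel : ∀ s t : MaxClique G, Rel (cliqueGraph G) s t → ∃ x, x ∈ s.1 ∧ x ∈ t.1 := by
    rintro s t (rfl | h)
    · exact ⟨b s, hb s, hb s⟩
    · obtain ⟨x, hx⟩ := h.2
      exact ⟨x, hx.1, hx.2⟩
  let p : MaxClique G → MaxClique G → V := fun s t =>
    if h : ∃ x, x ∈ s.1 ∧ x ∈ t.1 then h.choose else b s
  have hp : ∀ s t, (∃ x, x ∈ s.1 ∧ x ∈ t.1) → p s t ∈ s.1 ∧ p s t ∈ t.1 := by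
    intro s t h
    have : p s t = h.choose := dif_pos h
    rw [this]
    exact h.choose_spec
  let c' : MaxClique G → MaxClique G → Γ := fun s t => c (b s) (p s t) * c (p s t) (b t)
  -- independence of the chosen common point
  have hind : ∀ (s t : MaxClique G) (x : V), x ∈ s.1 → x ∈ t.1 →
      c' s t = c (b s) x * c x (b t) := by
    intro s t x hx hx'
    obtain ⟨h1, h2⟩ := hp s t ⟨x, hx, hx'⟩
    have e1 : c (b s) x * c x (p s t) = c (b s) (p s t) :=
      hc _ _ _ (rel_of_clique (hcl s) (hb s) hx) (rel_of_clique (hcl s) hx h1)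
        (rel_of_clique (hcl s) (hb s) h1)
    have e2 : c x (p s t) * c (p s t) (b t) = c x (b t) :=
      hc _ _ _ (rel_of_clique (hcl t) hx' h2) (rel_of_clique (hcl t) h2 (hb t))
        (rel_of_clique (hcl t) hx' (hb t))
    show c (b s) (p s t) * c (p s t) (b t) = _
    rw [← e1, ← e2, mul_assoc]
  refine ⟨c', ?_, ?_⟩
  · intro s t u hst htu hsu
    obtain ⟨x, hxs, hxt⟩ := hrel s t hst
    obtain ⟨y, hyt, hyu⟩ := hrel t u htu
    obtain ⟨z, hzs, hzu⟩ := hrel s u hsu
    rw [hind s t x hxs hxt, hind t u y hyt hyu, hind s u z hzs hzu]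
    have e1 : c x (b t) * c (b t) y = c x y :=
      hc _ _ _ (rel_of_clique (hcl t) hxt (hb t)) (rel_of_clique (hcl t) (hb t) hyt)
        (rel_of_clique (hcl t) hxt hyt)
    have e2 : c (b s) z * c z x = c (b s) x :=
      hc _ _ _ (rel_of_clique (hcl s) (hb s) hzs) (rel_of_clique (hcl s) hzs hxs)
        (rel_of_clique (hcl s) (hb s) hxs)
    have e3 : c y z * c z (b u) = c y (b u) :=
      hc _ _ _ (rel_of_clique (hcl u) hyu hzu) (rel_of_clique (hcl u) hzu (hb u))
        (rel_of_clique (hcl u) hyu (hb u))
    have e4 : c z x * c x y = c z y :=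
      hc _ _ _ (rel_of_clique (hcl s) hzs hxs) (rel_of_clique (hcl t) hxt hyt)
        (rel_of_clique (hcl u) hzu hyu)
    have e5 : c z y * c y z = 1 := hc.mul_symm (rel_of_clique (hcl u) hzu hyu)
    calc c (b s) x * c x (b t) * (c (b t) y * c y (b u))
        = c (b s) x * (c x (b t) * c (b t) y) * c y (b u) := by simp only [mul_assoc]
      _ = c (b s) z * (c z x * c x y) * c y z * c z (b u) := by
          rw [e1, ← e2, ← e3]; simp only [mul_assoc]
      _ = c (b s) z * (c z y * c y z) * c z (b u) := by rw [e4]; simp only [mul_assoc]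
      _ = c (b s) z * c z (b u) := by rw [e5]; simp
  · rintro ⟨f', hf'⟩
    apply hn
    have hex : ∀ x : V, ∃ s : MaxClique G, x ∈ s.1 := fun x => by
      obtain ⟨t, ht, -⟩ := exists_maxClique_pair (Rel.refl (G := G) x)
      exact ⟨t, ht⟩
    choose q hq using hex
    refine ⟨fun x => f' (q x) * c (b (q x)) x, ?_⟩
    -- independence of the clique
    have hi : ∀ (x : V) (s : MaxClique G), x ∈ s.1 →
        f' (q x) * c (b (q x)) x = f' s * c (b s) x := by
      intro x s hx
      have hr : Rel (cliqueGraph G) (q x) s := by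
        by_cases h : q x = s
        · exact Or.inl h
        · exact Or.inr ⟨h, ⟨x, hq x, hx⟩⟩
      have h1 := hf' _ _ hr
      rw [hind (q x) s x (hq x) hx] at h1
      have h2 : c x (b s) * c (b s) x = 1 :=
        hc.mul_symm (rel_of_clique (hcl s) hx (hb s))
      have h3 : f' (q x) * (c (b (q x)) x * c x (b s)) = f' s := by rw [h1]; simp
      calc f' (q x) * c (b (q x)) x
          = f' (q x) * (c (b (q x)) x * c x (b s)) * c (b s) x := by
            rw [mul_assoc, mul_assoc, h2, mul_one]
        _ = f' s * c (b s) x := by rw [h3]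
    intro x y hxy
    obtain ⟨s, hxs, hys⟩ := exists_maxClique_pair hxy
    simp only
    rw [hi x s hxs, hi y s hys]
    have e : c x (b s) * c (b s) y = c x y :=
      hc _ _ _ (rel_of_clique (hcl s) hxs (hb s)) (rel_of_clique (hcl s) (hb s) hys) hxy
    have e' : c (b s) x * c x (b s) = 1 := hc.mul_symm (rel_of_clique (hcl s) (hb s) hxs)
    have e'' : (c (b s) x)⁻¹ = c x (b s) := inv_eq_of_mul_eq_one_right e'
    rw [mul_inv_rev, e'', ← e]
    simp [mul_assoc]

/-- A nontrivial cocycle forces at least two vertices. -/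
lemma nontrivial_of_cocycle (c : V → V → Γ) (hc : IsCocycle G c) (hn : ¬ IsTrivial G c) :
    Nontrivial V := by
  by_contra h
  rw [not_nontrivial_iff_subsingleton] at h
  apply hn
  refine ⟨fun _ => 1, fun x y _ => ?_⟩
  have : x = y := Subsingleton.elim x y
  subst this
  rw [hc.self]; simp

/-- A graph with a nontrivial cocycle has iterated clique graphs with at least two vertices. -/
theorem iterK_nontrivial (c : V → V → Γ) (hc : IsCocycle G c) (hn : ¬ IsTrivial G c) (n : ℕ) :
    Nontrivial (iterK ⟨V, G⟩ n).1 := by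
  have key : ∀ n : ℕ, ∃ c' : (iterK ⟨V, G⟩ n).1 → (iterK ⟨V, G⟩ n).1 → Γ,
      IsCocycle (iterK ⟨V, G⟩ n).2 c' ∧ ¬ IsTrivial (iterK ⟨V, G⟩ n).2 c' := by
    intro n
    induction n with
    | zero => exact ⟨c, hc, hn⟩
    | succ n ih =>
      obtain ⟨c', h1, h2⟩ := ih
      exact cliqueGraph_cocycle c' h1 h2
  obtain ⟨c', h1, h2⟩ := key n
  exact nontrivial_of_cocycle c' h1 h2

end cocycles

/-! ### The face poset of the hemicube

Elements `0,…,3` are the vertices, `4,…,9` the edges `01, 23, 02, 13, 03, 12` and `10, 11, 12`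
the faces; the face `10 + m` contains the four edges other than `4 + 2m` and `5 + 2m`. -/

/-- The ground set. -/
def Hemi : Type := Fin 13

instance : DecidableEq Hemi := inferInstanceAs (DecidableEq (Fin 13))
instance : Fintype Hemi := inferInstanceAs (Fintype (Fin 13))

/-- The order relation as a table. -/
def leB (i j : Fin 13) : Bool :=
  Nat.testBit 374167256514186578981369985008765614525266244296017 (13 * i.val + j.val)

lemma leB_refl : ∀ i, leB i i = true := by decide +kernel
lemma leB_trans : ∀ i j, leB i j = true → ∀ k, leB j k = true → leB i k = true := by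
  decide +kernel
lemma leB_antisymm : ∀ i j, leB i j = true → leB j i = true → i = j := by decide +kernel

instance : PartialOrder Hemi where
  le i j := leB i j = true
  le_refl := leB_refl
  le_trans i j k h1 h2 := leB_trans i j h1 k h2
  le_antisymm i j h1 h2 := leB_antisymm i j h1 h2

/-- Incomparability. -/
def incB (i j : Fin 13) : Bool := !leB i j && !leB j i

/-- The exhaustive search: there is no way of choosing images of the vertices and faces,
incomparable to the originals, that extends to the edges. -/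
lemma search :
    ∀ b0 : Fin 13, incB 10 b0 = true → ∀ b1 : Fin 13, incB 11 b1 = true →
    ∀ b2 : Fin 13, incB 12 b2 = true →
    ∀ a0 : Fin 13, (incB 0 a0 && leB a0 b0 && leB a0 b1 && leB a0 b2) = true →
    ∀ a1 : Fin 13, (incB 1 a1 && leB a1 b0 && leB a1 b1 && leB a1 b2) = true →
    ∀ a2 : Fin 13, (incB 2 a2 && leB a2 b0 && leB a2 b1 && leB a2 b2) = true →
    ∀ a3 : Fin 13, (incB 3 a3 && leB a3 b0 && leB a3 b1 && leB a3 b2) = true →
    (∀ e : Fin 13, (incB 4 e && leB a0 e && leB a1 e && leB e b1 && leB e b2) = false) ∨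
    (∀ e : Fin 13, (incB 5 e && leB a2 e && leB a3 e && leB e b1 && leB e b2) = false) ∨
    (∀ e : Fin 13, (incB 6 e && leB a0 e && leB a2 e && leB e b0 && leB e b2) = false) ∨
    (∀ e : Fin 13, (incB 7 e && leB a1 e && leB a3 e && leB e b0 && leB e b2) = false) ∨
    (∀ e : Fin 13, (incB 8 e && leB a0 e && leB a3 e && leB e b0 && leB e b1) = false) ∨
    (∀ e : Fin 13, (incB 9 e && leB a1 e && leB a2 e && leB e b0 && leB e b1) = false) := by
  decide +kernel

/-- In a finite ordered set, a monotone map that moves some point up or down has a fixed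
point. -/
lemma fixed_of_le {P : Type} [Finite P] [PartialOrder P] (f : P → P) (hf : Monotone f)
    {x : P} (h : x ≤ f x) : ∃ y, f y = y := by
  obtain ⟨m, hm, hmax⟩ := (Set.toFinite {y : P | y ≤ f y}).exists_maximal ⟨x, h⟩
  have h1 : m ≤ f m := hm
  have h2 : f m ≤ f (f m) := hf h1
  exact ⟨m, le_antisymm (hmax h2 h1) h1⟩

lemma fixed_of_ge {P : Type} [Finite P] [PartialOrder P] (f : P → P) (hf : Monotone f)
    {x : P} (h : f x ≤ x) : ∃ y, f y = y := by
  obtain ⟨m, hm, hmin⟩ := (Set.toFinite {y : P | f y ≤ y}).exists_minimal ⟨x, h⟩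
  have h1 : f m ≤ m := hm
  have h2 : f (f m) ≤ f m := hf h1
  exact ⟨m, le_antisymm h1 (hmin h2 h1)⟩

/-- The poset `Hemi` has the fixed point property. -/
theorem hemi_fpp (f : Hemi → Hemi) (hf : Monotone f) : ∃ x, f x = x := by
  by_contra hno
  have hinc : ∀ x : Fin 13, incB x (f x) = true := by
    intro x
    have h1 : ¬ leB x (f x) = true := fun h => hno (fixed_of_le (x := (x : Hemi)) f hf h)
    have h2 : ¬ leB (f x) x = true := fun h => hno (fixed_of_ge (x := (x : Hemi)) f hf h)
    simp [incB, h1, h2]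
  have hm : ∀ i j : Fin 13, leB i j = true → leB (f i) (f j) = true := fun i j h => hf h
  let g : Fin 13 → Fin 13 := f
  have hg : ∀ x, incB x (g x) = true := hinc
  have hgm : ∀ i j : Fin 13, leB i j = true → leB (g i) (g j) = true := hm
  have a : ∀ v F : Fin 13, leB v F = true → leB (g v) (g F) = true := hgm
  have key := search (g 10) (hg 10) (g 11) (hg 11) (g 12) (hg 12)
    (g 0) (by simp [hg 0, hgm 0 10 (by decide), hgm 0 11 (by decide), hgm 0 12 (by decide)])
    (g 1) (by simp [hg 1, hgm 1 10 (by decide), hgm 1 11 (by decide), hgm 1 12 (by decide)])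
    (g 2) (by simp [hg 2, hgm 2 10 (by decide), hgm 2 11 (by decide), hgm 2 12 (by decide)])
    (g 3) (by simp [hg 3, hgm 3 10 (by decide), hgm 3 11 (by decide), hgm 3 12 (by decide)])
  rcases key with h | h | h | h | h | h
  · have := h (g 4)
    simp [hg 4, hgm 0 4 (by decide), hgm 1 4 (by decide), hgm 4 11 (by decide),
      hgm 4 12 (by decide)] at this
  · have := h (g 5)
    simp [hg 5, hgm 2 5 (by decide), hgm 3 5 (by decide), hgm 5 11 (by decide),
      hgm 5 12 (by decide)] at this
  · have := h (g 6)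
    simp [hg 6, hgm 0 6 (by decide), hgm 2 6 (by decide), hgm 6 10 (by decide),
      hgm 6 12 (by decide)] at this
  · have := h (g 7)
    simp [hg 7, hgm 1 7 (by decide), hgm 3 7 (by decide), hgm 7 10 (by decide),
      hgm 7 12 (by decide)] at this
  · have := h (g 8)
    simp [hg 8, hgm 0 8 (by decide), hgm 3 8 (by decide), hgm 8 10 (by decide),
      hgm 8 11 (by decide)] at this
  · have := h (g 9)
    simp [hg 9, hgm 1 9 (by decide), hgm 2 9 (by decide), hgm 9 10 (by decide),
      hgm 9 11 (by decide)] at this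

/-- The cocycle on the comparability graph of `Hemi`, with values in `{0, 1}`. -/
def cB (i j : Fin 13) : Bool :=
  Nat.testBit 15351520787298575161342756072220192791737777782784 (13 * i.val + j.val)

/-- comparability, equality included -/
def relB (i j : Fin 13) : Bool := leB i j || leB j i

lemma cB_cocycle : ∀ x y : Fin 13, relB x y = true → ∀ z : Fin 13,
    (relB y z && relB x z) = true → xor (cB x y) (cB y z) = cB x z := by
  decide +kernel

/-- The group with two elements, written multiplicatively. -/
abbrev Γ₂ : Type := Multiplicative (ZMod 2)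

/-- From Booleans to the group with two elements. -/
def toΓ (b : Bool) : Γ₂ := Multiplicative.ofAdd (if b then 1 else 0)

lemma toΓ_xor : ∀ a b : Bool, toΓ a * toΓ b = toΓ (xor a b) := by decide

lemma rel_iff (x y : Hemi) : Rel (compGraph Hemi) x y ↔ relB x y = true := by
  unfold Rel compGraph relB
  constructor
  · rintro (rfl | ⟨-, h | h⟩)
    · have h1 : leB x x = true := leB_refl x
      rw [h1]; rfl
    · have h1 : leB x y = true := h
      rw [h1]; rfl
    · have h1 : leB y x = true := h
      rw [h1, Bool.or_true]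
  · intro h
    by_cases hxy : x = y
    · exact Or.inl hxy
    · refine Or.inr ⟨hxy, ?_⟩
      rcases (Bool.or_eq_true _ _).mp h with h1 | h1
      · exact Or.inl h1
      · exact Or.inr h1

lemma hemi_cocycle : IsCocycle (compGraph Hemi) (fun x y => toΓ (cB x y)) := by
  intro x y z h1 h2 h3
  rw [rel_iff] at h1 h2 h3
  rw [toΓ_xor, cB_cocycle x y h1 z (by simp [h2, h3])]

lemma hemi_nontrivial : ¬ IsTrivial (compGraph Hemi) (fun x y => toΓ (cB x y)) := by
  rintro ⟨f, hf⟩
  have h : ∀ x y : Fin 13, relB x y = true →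
      toΓ (cB x y) = (f x)⁻¹ * f y := fun x y hxy => hf x y ((rel_iff x y).2 hxy)
  -- the closed walk 0, 4, 1, 9, 2, 6, 0
  have e : toΓ (cB 0 4) * toΓ (cB 4 1) * toΓ (cB 1 9) * toΓ (cB 9 2) * toΓ (cB 2 6) *
      toΓ (cB 6 0) = 1 := by
    rw [h 0 4 (by decide), h 4 1 (by decide), h 1 9 (by decide), h 9 2 (by decide),
      h 2 6 (by decide), h 6 0 (by decide)]
    group
  revert e
  decide +kernel

/-- **Main result.** There is an ordered set `P` with 13 elements which has the fixed point
property, while every iterated clique graph `K^n(G(P))` of its comparability graph has at least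
two vertices. -/
theorem result :
    ∃ (P : Type) (_ : Fintype P) (_ : PartialOrder P),
      Fintype.card P = 13 ∧
      (∀ f : P → P, Monotone f → ∃ x, f x = x) ∧
      ∀ n : ℕ, Nontrivial (iterK ⟨P, compGraph P⟩ n).1 :=
  ⟨Hemi, inferInstance, inferInstance, rfl, hemi_fpp,
    iterK_nontrivial _ hemi_cocycle hemi_nontrivial⟩

end Pool.Agent.Results.MP_c7efa6_co.FixedPointWithoutCollapse
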